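import Mathlib

/-!
General definitions: stratifications, horizontal curves, the Carnot distance of a Lie group with
respect to a norm on a subspace of its Lie algebra, biLipschitz maps, maps that permute cosets.
-/

open scoped Manifold ContDiff ENNReal NNReal Topology
open Set MeasureTheory

noncomputable section

namespace Pool.Agent.W530.Carnot

/-- A stratification of step `r` of a real Lie algebra `L`: subspaces `V 1, ..., V r` with
`L` their direct sum, `[V 1, V j] = V (j + 1)` for `j` at least one, `V j = 0` for `j > r` and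
`V r ≠ 0`. -/
structure IsStratification {L : Type} [LieRing L] [LieAlgebra ℝ L] (r : ℕ)
    (V : ℕ → Submodule ℝ L) : Prop where
  direct : ∀ x : L, ∃! y : Fin r → L, (∀ i : Fin r, y i ∈ V (i + 1)) ∧ ∑ i, y i = x
  bracket : ∀ j, 1 ≤ j →
    Submodule.span ℝ {z : L | ∃ x ∈ V 1, ∃ y ∈ V j, ⁅x, y⁆ = z} = V (j + 1)
  vanish : ∀ j, r < j → V j = ⊥
  last : V r ≠ ⊥

section CC

variable {E : Type} [NormedAddCommGroup E] [NormedSpace ℝ E]
  {G : Type} [TopologicalSpace G] [ChartedSpace E G]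

/-- The value at `g` of the left-invariant vector field of the Lie group `G` given by the vector `v`
of the Lie algebra (in Mathlib the tangent spaces of `G` are, as vector spaces, the model space
`E`). -/
def leftField [Group G] (v : E) (g : G) : E :=
  mulInvariantVectorField (I := 𝓘(ℝ, E)) (G := G) v g

/-- The derivative of the function `φ` at `g` in the direction of the tangent vector `w`. -/
def dirDeriv (φ : G → ℝ) (g : G) (w : E) : ℝ := mfderiv 𝓘(ℝ, E) 𝓘(ℝ, ℝ) φ g w

variable (E) in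
/-- smooth functions on `G` -/
def IsSmooth (φ : G → ℝ) : Prop := ContMDiff 𝓘(ℝ, E) 𝓘(ℝ, ℝ) ∞ φ

/-- `γ` is, on `[0, 1]`, an absolutely continuous curve in the Lie group `G` whose velocity is, for
almost every time `t`, the value at `γ t` of the left-invariant vector field given by the vector
`u t` of the subset `V` of the Lie algebra of `G`. This is expressed by integrals: `γ` is
continuous, `u` is integrable, and `φ (γ t) - φ (γ 0)` is the integral from `0` to `t` of the
derivative of `φ` in the direction of that vector field, for every smooth function `φ` on `G`. -/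
structure IsHorizontal [Group G] (V : Set E) (γ : ℝ → G) (u : ℝ → E) : Prop where
  cont : ContinuousOn γ (Icc 0 1)
  mem : ∀ t ∈ Icc (0 : ℝ) 1, u t ∈ V
  integrable : IntervalIntegrable u volume 0 1
  tangent : ∀ φ : G → ℝ, IsSmooth E φ → ∀ t ∈ Icc (0 : ℝ) 1,
    φ (γ t) = φ (γ 0) + ∫ s in (0 : ℝ)..t, dirDeriv φ (γ s) (leftField (u s) (γ s))

/-- The Carnot distance from `x` to `y`: the infimum of the lengths of the horizontal curves from
`x` to `y`, the length being measured by the left-invariant norm that `ν` defines on the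
left-invariant distribution given by `V`. -/
def ccEDist [Group G] (V : Set E) (ν : E → ℝ) (x y : G) : ℝ≥0∞ :=
  ⨅ (γ : ℝ → G) (u : ℝ → E) (_ : IsHorizontal V γ u ∧ γ 0 = x ∧ γ 1 = y),
    ENNReal.ofReal (∫ s in (0 : ℝ)..1, ν (u s))

/-- The restriction of `ν` to the subspace `V` is a norm. -/
structure IsNormOn (V : Submodule ℝ E) (ν : E → ℝ) : Prop where
  add_le : ∀ v ∈ V, ∀ w ∈ V, ν (v + w) ≤ ν v + ν w
  smul_eq : ∀ c : ℝ, ∀ v ∈ V, ν (c • v) = |c| * ν v
  pos : ∀ v ∈ V, v ≠ 0 → 0 < ν v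

end CC

/-- `f` is biLipschitz for the distance function `d`. -/
def IsBiLipschitz {X : Type} (d : X → X → ℝ≥0∞) (f : X → X) : Prop :=
  ∃ L : ℝ≥0, ∀ x y : X, d (f x) (f y) ≤ L * d x y ∧ d x y ≤ L * d (f x) (f y)

/-- `f` permutes the left cosets of the subgroup `K`: the image of every left coset is one. -/
def PermutesLeftCosets {G : Type} [Group G] (f : G → G) (K : Subgroup G) : Prop :=
  ∀ g : G, ∃ h : G, f '' {x | ∃ k ∈ K, g * k = x} = {x | ∃ k ∈ K, h * k = x}

/-- The real Heisenberg group of dimension `2 n + 1`: triples `(p, q, z)` with the product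
`(p, q, z) (p', q', z') = (p + p', q + q', z + z' + p . q')`. -/
@[ext] structure Heis (n : ℕ) where
  p : Fin n → ℝ
  q : Fin n → ℝ
  z : ℝ

namespace Heis

variable {n : ℕ}

instance : Mul (Heis n) := ⟨fun a b => ⟨a.p + b.p, a.q + b.q, a.z + b.z + ∑ i, a.p i * b.q i⟩⟩
instance : One (Heis n) := ⟨⟨0, 0, 0⟩⟩
instance : Inv (Heis n) := ⟨fun a => ⟨-a.p, -a.q, -a.z + ∑ i, a.p i * a.q i⟩⟩

lemma mul_def (a b : Heis n) : a * b = ⟨a.p + b.p, a.q + b.q, a.z + b.z + ∑ i, a.p i * b.q i⟩ := rfl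
lemma one_def : (1 : Heis n) = ⟨0, 0, 0⟩ := rfl
lemma inv_def (a : Heis n) : a⁻¹ = ⟨-a.p, -a.q, -a.z + ∑ i, a.p i * a.q i⟩ := rfl

instance : Group (Heis n) := Group.ofLeftAxioms
  (by
    intro a b c
    simp only [mul_def, Heis.mk.injEq]
    refine ⟨by abel, by abel, ?_⟩
    simp only [Pi.add_apply, add_mul, mul_add, Finset.sum_add_distrib]
    ring)
  (by
    intro a
    simp [mul_def, one_def])
  (by
    intro a
    simp only [mul_def, one_def, inv_def, Heis.mk.injEq]
    refine ⟨by simp, by simp, ?_⟩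
    simp)

end Heis

/-! ### The group -/

/-- The model vector space `R^6`. -/
abbrev E : Type := Fin 6 → ℝ

/-- The linear part of the left translation by `g`. -/
def A (g v : E) : E :=
  ![v 0, v 1, v 2 + g 0 * v 1, v 3, v 4, v 5 + g 0 * v 4 + g 3 * v 1]

lemma ext6E {x y : E} (h0 : x 0 = y 0) (h1 : x 1 = y 1) (h2 : x 2 = y 2) (h3 : x 3 = y 3)
    (h4 : x 4 = y 4) (h5 : x 5 = y 5) : x = y := by
  funext i
  fin_cases i
  · exact h0
  · exact h1
  · exact h2
  · exact h3
  · exact h4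
  · exact h5

lemma m0 (a b c d e f : ℝ) : (![a, b, c, d, e, f] : E) 0 = a := rfl
lemma m1 (a b c d e f : ℝ) : (![a, b, c, d, e, f] : E) 1 = b := rfl
lemma m2 (a b c d e f : ℝ) : (![a, b, c, d, e, f] : E) 2 = c := rfl
lemma m3 (a b c d e f : ℝ) : (![a, b, c, d, e, f] : E) 3 = d := rfl
lemma m4 (a b c d e f : ℝ) : (![a, b, c, d, e, f] : E) 4 = e := rfl
lemma m5 (a b c d e f : ℝ) : (![a, b, c, d, e, f] : E) 5 = f := rfl

lemma A0 (g v : E) : A g v 0 = v 0 := rfl
lemma A1 (g v : E) : A g v 1 = v 1 := rfl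
lemma A2 (g v : E) : A g v 2 = v 2 + g 0 * v 1 := rfl
lemma A3 (g v : E) : A g v 3 = v 3 := rfl
lemma A4 (g v : E) : A g v 4 = v 4 := rfl
lemma A5 (g v : E) : A g v 5 = v 5 + g 0 * v 4 + g 3 * v 1 := rfl

lemma A_add (g v w : E) : A g (v + w) = A g v + A g w := by
  apply ext6E <;> simp only [Pi.add_apply, A0, A1, A2, A3, A4, A5] <;> ring

lemma A_smul (g : E) (c : ℝ) (v : E) : A g (c • v) = c • A g v := by
  apply ext6E <;> simp only [Pi.smul_apply, smul_eq_mul, A0, A1, A2, A3, A4, A5] <;> ring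

/-- The underlying type of the group `N` of the upper unitriangular matrices of size three over the
dual numbers `R[e]`, `e ^ 2 = 0`. The coordinates `(x, y, z, a, b, c)` stand for the matrix whose
entries in the places `(1, 2)`, `(2, 3)`, `(1, 3)` are `x + e a`, `y + e b`, `z + e c`. -/
def N : Type := E

namespace N

instance : TopologicalSpace N := inferInstanceAs (TopologicalSpace E)
instance : T2Space N := inferInstanceAs (T2Space E)
instance : ChartedSpace E N := chartedSpaceSelf E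
instance : IsManifold 𝓘(ℝ, E) ω N := inferInstanceAs (IsManifold 𝓘(ℝ, E) ω E)
instance : IsManifold 𝓘(ℝ, E) ∞ N := inferInstanceAs (IsManifold 𝓘(ℝ, E) ∞ E)

/-- the element of the group with given coordinates -/
def of (v : E) : N := v
/-- the coordinates of an element of the group -/
def co (x : N) : E := x

lemma ext' {x y : N} (h : x.co = y.co) : x = y := h

instance : Mul N := ⟨fun x y => of (x.co + A x.co y.co)⟩
instance : One N := ⟨of 0⟩
instance : Inv N := ⟨fun x => of ![-x.co 0, -x.co 1, -x.co 2 + x.co 0 * x.co 1, -x.co 3, -x.co 4,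
  -x.co 5 + x.co 0 * x.co 4 + x.co 3 * x.co 1]⟩

@[simp] lemma co_of (v : E) : (of v).co = v := rfl
@[simp] lemma of_co (x : N) : of x.co = x := rfl
lemma co_mul (x y : N) : (x * y).co = x.co + A x.co y.co := rfl
lemma co_one : (1 : N).co = 0 := rfl

lemma co0_mul (x y : N) : (x * y).co 0 = x.co 0 + y.co 0 := rfl
lemma co1_mul (x y : N) : (x * y).co 1 = x.co 1 + y.co 1 := rfl
lemma co2_mul (x y : N) : (x * y).co 2 = x.co 2 + (y.co 2 + x.co 0 * y.co 1) := rfl
lemma co3_mul (x y : N) : (x * y).co 3 = x.co 3 + y.co 3 := rfl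
lemma co4_mul (x y : N) : (x * y).co 4 = x.co 4 + y.co 4 := rfl
lemma co5_mul (x y : N) : (x * y).co 5 = x.co 5 +
    (y.co 5 + x.co 0 * y.co 4 + x.co 3 * y.co 1) := rfl

lemma co0_inv (x : N) : (x⁻¹).co 0 = - x.co 0 := rfl
lemma co1_inv (x : N) : (x⁻¹).co 1 = - x.co 1 := rfl
lemma co2_inv (x : N) : (x⁻¹).co 2 = - x.co 2 + x.co 0 * x.co 1 := rfl
lemma co3_inv (x : N) : (x⁻¹).co 3 = - x.co 3 := rfl
lemma co4_inv (x : N) : (x⁻¹).co 4 = - x.co 4 := rfl
lemma co5_inv (x : N) : (x⁻¹).co 5 = - x.co 5 + x.co 0 * x.co 4 + x.co 3 * x.co 1 := rfl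

lemma ext6 {x y : N} (h0 : x.co 0 = y.co 0) (h1 : x.co 1 = y.co 1)
    (h2 : x.co 2 = y.co 2) (h3 : x.co 3 = y.co 3)
    (h4 : x.co 4 = y.co 4) (h5 : x.co 5 = y.co 5) : x = y := by
  apply ext'
  exact ext6E h0 h1 h2 h3 h4 h5

instance : Group N := Group.ofLeftAxioms
  (by
    intro x y z
    apply ext6
    · simp only [co0_mul]; ring
    · simp only [co1_mul]; ring
    · simp only [co0_mul, co1_mul, co2_mul]; ring
    · simp only [co3_mul]; ring
    · simp only [co4_mul]; ring
    · simp only [co0_mul, co1_mul, co3_mul, co4_mul, co5_mul]; ring)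
  (by
    intro x
    apply ext6 <;> simp [co0_mul, co1_mul, co2_mul, co3_mul, co4_mul, co5_mul, co_one])
  (by
    intro x
    apply ext6
    · simp only [co0_mul, co0_inv, co_one, Pi.zero_apply]; ring
    · simp only [co1_mul, co1_inv, co_one, Pi.zero_apply]; ring
    · simp only [co2_mul, co2_inv, co0_inv, co_one, Pi.zero_apply]; ring
    · simp only [co3_mul, co3_inv, co_one, Pi.zero_apply]; ring
    · simp only [co4_mul, co4_inv, co_one, Pi.zero_apply]; ring
    · simp only [co5_mul, co5_inv, co0_inv, co3_inv, co_one, Pi.zero_apply]; ring)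

/-- `A g` as a continuous linear map -/
def AL (g : E) : E →L[ℝ] E :=
  LinearMap.toContinuousLinearMap
    { toFun := A g
      map_add' := A_add g
      map_smul' := A_smul g }

@[simp] lemma AL_apply (g v : E) : AL g v = A g v := rfl

lemma contDiff_A' {F : Type*} [NormedAddCommGroup F] [NormedSpace ℝ F] {n : ℕ∞ω}
    (s : F → E) (v : F → E) (hs : ContDiff ℝ n s) (hv : ContDiff ℝ n v) :
    ContDiff ℝ n (fun p => A (s p) (v p)) := by
  have hs' : ∀ i, ContDiff ℝ n (fun p => s p i) := fun i => contDiff_pi.1 hs i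
  have hv' : ∀ i, ContDiff ℝ n (fun p => v p i) := fun i => contDiff_pi.1 hv i
  rw [contDiff_pi]
  intro i
  fin_cases i
  · exact hv' 0
  · exact hv' 1
  · exact (hv' 2).add ((hs' 0).mul (hv' 1))
  · exact hv' 3
  · exact hv' 4
  · exact ((hv' 5).add ((hs' 0).mul (hv' 4))).add ((hs' 3).mul (hv' 1))

lemma contDiff_mul' : ContDiff ℝ ω (fun p : E × E => p.1 + A p.1 p.2) :=
  contDiff_fst.add (contDiff_A' _ _ contDiff_fst contDiff_snd)

lemma contDiff_inv' : ContDiff ℝ ω (fun x : E => (![-x 0, -x 1, -x 2 + x 0 * x 1, -x 3, -x 4,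
    -x 5 + x 0 * x 4 + x 3 * x 1] : E)) := by
  have h : ∀ i, ContDiff ℝ ω (fun x : E => x i) := fun i => contDiff_apply ℝ ℝ i
  rw [contDiff_pi]
  intro i
  fin_cases i
  · exact (h 0).neg
  · exact (h 1).neg
  · exact (h 2).neg.add ((h 0).mul (h 1))
  · exact (h 3).neg
  · exact (h 4).neg
  · exact ((h 5).neg.add ((h 0).mul (h 4))).add ((h 3).mul (h 1))

lemma contMDiff_mul_aux :
    ContMDiff (𝓘(ℝ, E).prod 𝓘(ℝ, E)) 𝓘(ℝ, E) ω (fun p : E × E => p.1 + A p.1 p.2) := by
  rw [← modelWithCornersSelf_prod, chartedSpaceSelf_prod]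
  exact contDiff_mul'.contMDiff

instance : LieGroup 𝓘(ℝ, E) ω N where
  contMDiff_mul := contMDiff_mul_aux
  contMDiff_inv := contDiff_inv'.contMDiff

instance : LieGroup 𝓘(ℝ, E) ∞ N := LieGroup.of_le (n := ω) (by simp)

instance : LieGroup 𝓘(ℝ, E) (minSmoothness ℝ 3) N := LieGroup.of_le (n := ω) le_top

/-- the strata of the Lie algebra of `N`, in coordinates -/
def strat (j : ℕ) : Submodule ℝ E where
  carrier := {v | (j ≠ 1 → v 0 = 0 ∧ v 1 = 0 ∧ v 3 = 0 ∧ v 4 = 0) ∧ (j ≠ 2 → v 2 = 0 ∧ v 5 = 0)}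
  add_mem' := by
    rintro x y ⟨h1, h2⟩ ⟨h1', h2'⟩
    refine ⟨fun h => ?_, fun h => ?_⟩
    · simp [h1 h, h1' h]
    · simp [h2 h, h2' h]
  zero_mem' := by simp
  smul_mem' := by
    rintro c x ⟨h1, h2⟩
    refine ⟨fun h => ?_, fun h => ?_⟩
    · simp [h1 h]
    · simp [h2 h]

/-- the strata of the Lie algebra of `N`, as subspaces of the Lie algebra: `stratL 1` is spanned by
the directions of `x, y, a, b` and `stratL 2` by those of `z, c` -/
def stratL (j : ℕ) : Submodule ℝ (GroupLieAlgebra 𝓘(ℝ, E) N) := strat j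

end N

end Pool.Agent.W530.Carnot
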