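import Mathlib
import Pool.Agent.W530.Carnot.Defs

/-! The stratification of the Lie algebra of `N`, its lower central series, and the absence of
Heisenberg factors. -/

open scoped Manifold ContDiff ENNReal NNReal Topology commutatorElement
open Set

noncomputable section

set_option linter.unusedSimpArgs false
set_option linter.unnecessarySeqFocus false

namespace Pool.Agent.W530.Carnot

namespace N

/-- the bracket of the Lie algebra of `N`, in coordinates -/
def br (v w : E) : E :=
  ![0, 0, v 0 * w 1 - w 0 * v 1, 0, 0, v 0 * w 4 - w 0 * v 4 + (v 3 * w 1 - w 3 * v 1)]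

lemma hasFDerivAt_mul_left (g : E) (y : E) :
    HasFDerivAt (fun z : E => g + A g z) (AL g) y := by
  have := (AL g).hasFDerivAt (x := y)
  exact this.const_add g

lemma mfderiv_mul_left (g y : N) :
    mfderiv 𝓘(ℝ, E) 𝓘(ℝ, E) (fun z : N => g * z) y = AL g.co := by
  have h : mfderiv 𝓘(ℝ, E) 𝓘(ℝ, E) (fun z : E => g.co + A g.co z) y.co = AL g.co := by
    rw [mfderiv_eq_fderiv]
    exact (hasFDerivAt_mul_left g.co y.co).fderiv
  exact h

lemma mulInvariantVectorField_eq (v : GroupLieAlgebra 𝓘(ℝ, E) N) (g : N) :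
    mulInvariantVectorField v g = (A g.co v : E) := by
  unfold mulInvariantVectorField
  rw [mfderiv_mul_left]
  rfl

/-- the linear map `w -> A w v - v` for `v` fixed -/
def brL (v : E) : E →L[ℝ] E :=
  LinearMap.toContinuousLinearMap
    { toFun := fun w : E => ![0, 0, w 0 * v 1, 0, 0, w 0 * v 4 + w 3 * v 1]
      map_add' := by
        intro x y
        apply ext6E <;> simp only [Pi.add_apply, m0, m1, m2, m3, m4, m5] <;> ring
      map_smul' := by
        intro c x
        apply ext6E <;> simp only [Pi.smul_apply, smul_eq_mul, RingHom.id_apply,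
          m0, m1, m2, m3, m4, m5] <;> ring }

lemma brL_apply (v w : E) : brL v w = ![0, 0, w 0 * v 1, 0, 0, w 0 * v 4 + w 3 * v 1] :=
  rfl

lemma A_eq (g v : E) : A g v = brL v g + v := by
  apply ext6E <;> simp only [Pi.add_apply, A0, A1, A2, A3, A4, A5, brL_apply,
    m0, m1, m2, m3, m4, m5] <;> ring

lemma hasFDerivAt_A (v x : E) : HasFDerivAt (fun g : E => A g v) (brL v) x := by
  have h : HasFDerivAt (fun g : E => brL v g + v) (brL v) x := (brL v).hasFDerivAt.add_const v
  have e : (fun g : E => A g v) = fun g => brL v g + v := funext fun g => A_eq g v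
  rw [e]
  exact h

set_option backward.isDefEq.respectTransparency false in
lemma mlie_eq {F : Type*} [NormedAddCommGroup F] [NormedSpace ℝ F] (V W : F → F) (x : F) :
    VectorField.mlieBracket 𝓘(ℝ, F) (M := F) (V : (x : F) → TangentSpace 𝓘(ℝ, F) x)
      (W : (x : F) → TangentSpace 𝓘(ℝ, F) x) x = fderiv ℝ W x (V x) - fderiv ℝ V x (W x) := by
  rw [← VectorField.mlieBracketWithin_univ, VectorField.mlieBracketWithin_eq_lieBracketWithin,
    VectorField.lieBracketWithin_univ]
  rfl

lemma bracket_aux (v w : E) :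
    VectorField.mlieBracket 𝓘(ℝ, E) (M := E)
      ((fun g : E => A g v : E → E) : (x : E) → TangentSpace 𝓘(ℝ, E) x)
      ((fun g : E => A g w : E → E) : (x : E) → TangentSpace 𝓘(ℝ, E) x) (0 : E) = br v w := by
  rw [mlie_eq (fun g : E => A g v) (fun g : E => A g w) 0, (hasFDerivAt_A v 0).fderiv,
    (hasFDerivAt_A w 0).fderiv]
  change brL w (A (0 : E) v) - brL v (A (0 : E) w) = br v w
  apply ext6E <;> simp [brL_apply, br, A0, A1, A3, A4] <;> ring

lemma bracket_eq (v w : GroupLieAlgebra 𝓘(ℝ, E) N) : ⁅v, w⁆ = (br v w : E) := by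
  rw [GroupLieAlgebra.bracket_def]
  have hV : (mulInvariantVectorField v : (g : N) → TangentSpace 𝓘(ℝ, E) g) =
      fun g => (A g.co v : E) := funext fun g => mulInvariantVectorField_eq v g
  have hW : (mulInvariantVectorField w : (g : N) → TangentSpace 𝓘(ℝ, E) g) =
      fun g => (A g.co w : E) := funext fun g => mulInvariantVectorField_eq w g
  rw [hV, hW]
  exact bracket_aux v w

lemma mem_strat (j : ℕ) (v : E) : v ∈ strat j ↔
    ((j ≠ 1 → v 0 = 0 ∧ v 1 = 0 ∧ v 3 = 0 ∧ v 4 = 0) ∧ (j ≠ 2 → v 2 = 0 ∧ v 5 = 0)) := Iff.rfl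

lemma strat_direct (x : E) : ∃! y : Fin 2 → E, (∀ i : Fin 2, y i ∈ strat (i + 1)) ∧
    ∑ i, y i = x := by
  refine ⟨![![x 0, x 1, 0, x 3, x 4, 0], ![0, 0, x 2, 0, 0, x 5]], ⟨?_, ?_⟩, ?_⟩
  · intro i
    fin_cases i <;> simp [mem_strat]
  · rw [Fin.sum_univ_two]
    apply ext6E <;> simp
  · rintro y ⟨hy, hs⟩
    have h0 := (mem_strat _ _).1 (hy 0)
    have h1 := (mem_strat _ _).1 (hy 1)
    simp at h0 h1
    rw [Fin.sum_univ_two] at hs
    subst hs
    funext i
    fin_cases i
    · apply ext6E <;> simp [h0, h1]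
    · apply ext6E <;> simp [h0, h1]

lemma strat_bracket (j : ℕ) (hj : 1 ≤ j) :
    Submodule.span ℝ {z : E | ∃ x ∈ strat 1, ∃ y ∈ strat j, br x y = z} = strat (j + 1) := by
  apply le_antisymm
  · rw [Submodule.span_le]
    rintro z ⟨x, hx, y, hy, rfl⟩
    rw [SetLike.mem_coe, mem_strat]
    rw [mem_strat] at hx hy
    simp at hx
    refine ⟨fun h => ?_, fun h => ?_⟩
    · simp [br]
    · have hj1 : j ≠ 1 := fun h' => h (by omega)
      simp [br, hy.1 hj1]
  · intro z hz
    rw [mem_strat] at hz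
    obtain ⟨h1, h2⟩ := hz
    have h1' := h1 (by omega)
    by_cases hj1 : j = 1
    · subst hj1
      apply Submodule.subset_span
      refine ⟨![1, 0, 0, 0, 0, 0], by simp [mem_strat], ![0, z 2, 0, 0, z 5, 0],
        by simp [mem_strat], ?_⟩
      apply ext6E <;> simp [br, h1']
    · have h2' := h2 (by omega)
      have : z = 0 := by apply ext6E <;> simp [h1', h2']
      rw [this]
      exact Submodule.zero_mem _

lemma strat_vanish (j : ℕ) (hj : 2 < j) : strat j = ⊥ := by
  rw [eq_bot_iff]
  intro z hz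
  rw [mem_strat] at hz
  obtain ⟨h1, h2⟩ := hz
  have h1' := h1 (by omega)
  have h2' := h2 (by omega)
  rw [Submodule.mem_bot]
  apply ext6E <;> simp [h1', h2']

lemma strat_two_ne : strat 2 ≠ ⊥ := by
  intro h
  have : (![0, 0, 1, 0, 0, 0] : E) ∈ strat 2 := by simp [mem_strat]
  rw [h, Submodule.mem_bot] at this
  have h3 := congrFun this 2
  simp at h3

theorem isStratification : IsStratification (L := GroupLieAlgebra 𝓘(ℝ, E) N) 2 stratL where
  direct x := strat_direct x
  bracket j hj := by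
    have h := strat_bracket j hj
    have e : {z : GroupLieAlgebra 𝓘(ℝ, E) N | ∃ x ∈ stratL 1, ∃ y ∈ stratL j, ⁅x, y⁆ = z} =
        {z : E | ∃ x ∈ strat 1, ∃ y ∈ strat j, br x y = z} := by
      ext z
      constructor
      · rintro ⟨x, hx, y, hy, h⟩
        rw [bracket_eq] at h
        exact ⟨x, hx, y, hy, h⟩
      · rintro ⟨x, hx, y, hy, h⟩
        exact ⟨x, hx, y, hy, (bracket_eq _ _).trans h⟩
    rw [e]
    exact h
  vanish j hj := strat_vanish j hj
  last := strat_two_ne

/-! ### Lower central series -/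

/-- the second term of the lower central series -/
def N2 : Subgroup N where
  carrier := {x | x.co 0 = 0 ∧ x.co 1 = 0 ∧ x.co 3 = 0 ∧ x.co 4 = 0}
  mul_mem' := by
    rintro x y ⟨h1, h2, h3, h4⟩ ⟨h1', h2', h3', h4'⟩
    refine ⟨?_, ?_, ?_, ?_⟩
    · simp [co0_mul, h1, h1']
    · simp [co1_mul, h2, h2']
    · simp [co3_mul, h3, h3']
    · simp [co4_mul, h4, h4']
  one_mem' := ⟨rfl, rfl, rfl, rfl⟩
  inv_mem' := by
    rintro x ⟨h1, h2, h3, h4⟩
    refine ⟨?_, ?_, ?_, ?_⟩
    · simp [co0_inv, h1]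
    · simp [co1_inv, h2]
    · simp [co3_inv, h3]
    · simp [co4_inv, h4]

/-- commutators, in coordinates -/
lemma comm_co2 (x y : N) : (⁅x, y⁆ : N).co 2 = x.co 0 * y.co 1 - y.co 0 * x.co 1 := by
  rw [commutatorElement_def]
  simp only [co2_mul, co2_inv, co1_mul, co1_inv, co0_mul, co0_inv]
  ring

lemma comm_co5 (x y : N) : (⁅x, y⁆ : N).co 5 =
    x.co 0 * y.co 4 - y.co 0 * x.co 4 + (x.co 3 * y.co 1 - y.co 3 * x.co 1) := by
  rw [commutatorElement_def]
  simp only [co5_mul, co5_inv, co4_mul, co4_inv, co3_mul, co3_inv, co1_mul, co1_inv, co0_mul,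
    co0_inv]
  ring

lemma comm_mem (x y : N) : (⁅x, y⁆ : N) ∈ N2 := by
  rw [commutatorElement_def]
  refine ⟨?_, ?_, ?_, ?_⟩
  · simp only [co0_mul, co0_inv]; ring
  · simp only [co1_mul, co1_inv]; ring
  · simp only [co3_mul, co3_inv]; ring
  · simp only [co4_mul, co4_inv]; ring

lemma lcs1 : (⊤ : Subgroup N).lowerCentralSeries 1 = N2 := by
  rw [Subgroup.lowerCentralSeries_succ, Subgroup.lowerCentralSeries_zero]
  apply le_antisymm
  · rw [Subgroup.commutator_le]
    intro x _ y _
    exact comm_mem x y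
  · rintro x ⟨h1, h2, h3, h4⟩
    have e : x = ⁅(of ![1, 0, 0, 0, 0, 0] : N), (of ![0, x.co 2, 0, 0, x.co 5, 0] : N)⁆ := by
      obtain ⟨k0, k1, k3, k4⟩ := comm_mem (of ![1, 0, 0, 0, 0, 0] : N)
        (of ![0, x.co 2, 0, 0, x.co 5, 0] : N)
      apply ext6
      · rw [h1, k0]
      · rw [h2, k1]
      · rw [comm_co2]; simp
      · rw [h3, k3]
      · rw [h4, k4]
      · rw [comm_co5]; simp
    rw [e]
    exact Subgroup.commutator_mem_commutator (Subgroup.mem_top _) (Subgroup.mem_top _)

/-- commutation, in coordinates -/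
lemma commute_iff (x y : N) : x * y = y * x ↔
    (x.co 0 * y.co 1 = y.co 0 * x.co 1 ∧
      x.co 0 * y.co 4 + x.co 3 * y.co 1 = y.co 0 * x.co 4 + y.co 3 * x.co 1) := by
  constructor
  · intro h
    have h2 := congrArg (fun z : N => z.co 2) h
    have h5 := congrArg (fun z : N => z.co 5) h
    simp only [co2_mul, co5_mul] at h2 h5
    refine ⟨by linarith, by linarith⟩
  · rintro ⟨h1, h2⟩
    apply ext6
    · simp only [co0_mul]; ring
    · simp only [co1_mul]; ring
    · simp only [co2_mul]; linarith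
    · simp only [co3_mul]; ring
    · simp only [co4_mul]; ring
    · simp only [co5_mul]; linarith

lemma lcs2 : (⊤ : Subgroup N).lowerCentralSeries 2 = ⊥ := by
  rw [Subgroup.lowerCentralSeries_succ, lcs1, eq_bot_iff, Subgroup.commutator_le]
  rintro x ⟨h1, h2, h3, h4⟩ y _
  rw [Subgroup.mem_bot, commutatorElement_eq_one_iff_mul_comm, commute_iff]
  simp [h1, h2, h3, h4]

/-- an element that commutes with two elements, the commutator of which has nonzero third
coordinate, is central -/
lemma central_of_commute {h k x : N} (hne : h.co 0 * k.co 1 - k.co 0 * h.co 1 ≠ 0)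
    (hx : h * x = x * h) (kx : k * x = x * k) :
    x.co 0 = 0 ∧ x.co 1 = 0 ∧ x.co 3 = 0 ∧ x.co 4 = 0 := by
  rw [commute_iff] at hx kx
  obtain ⟨h1, h2⟩ := hx
  obtain ⟨k1, k2⟩ := kx
  have e0 : x.co 0 = 0 := by
    apply (mul_eq_zero.1 _).resolve_left hne
    linear_combination k.co 0 * h1 - h.co 0 * k1
  have e1 : x.co 1 = 0 := by
    apply (mul_eq_zero.1 _).resolve_left hne
    linear_combination (-h.co 1) * k1 + k.co 1 * h1
  rw [e0, e1] at h2 k2
  have e3 : x.co 3 = 0 := by
    apply (mul_eq_zero.1 _).resolve_left hne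
    linear_combination (-h.co 0) * (k2) + k.co 0 * (h2)
  have e4 : x.co 4 = 0 := by
    apply (mul_eq_zero.1 _).resolve_left hne
    linear_combination (-h.co 1) * k2 + k.co 1 * h2
  exact ⟨e0, e1, e3, e4⟩

lemma central_of_co {x : N} (h : x.co 0 = 0 ∧ x.co 1 = 0 ∧ x.co 3 = 0 ∧ x.co 4 = 0) (y : N) :
    x * y = y * x := by
  obtain ⟨h0, h1, h3, h4⟩ := h
  rw [commute_iff, h0, h1, h3, h4]
  simp

lemma heis_comm {n : ℕ} (a b : Heis n) :
    ⁅a, b⁆ = (⟨0, 0, ∑ i, a.p i * b.q i - ∑ i, b.p i * a.q i⟩ : Heis n) := by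
  rw [commutatorElement_def]
  ext i
  · simp [Heis.mul_def, Heis.inv_def]
  · simp [Heis.mul_def, Heis.inv_def]
  · simp only [Heis.mul_def, Heis.inv_def, Pi.add_apply, Pi.neg_apply, add_mul, mul_add, neg_mul,
      mul_neg, Finset.sum_add_distrib, Finset.sum_neg_distrib]
    ring

/-- in a Heisenberg group the commutators with a noncentral element give the whole centre -/
lemma heis_surj {n : ℕ} (a c d : Heis n) (ha : a.p ≠ 0 ∨ a.q ≠ 0) :
    ∃ b : Heis n, ⁅a, b⁆ = ⁅c, d⁆ := by
  rw [heis_comm]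
  set s := ∑ i, c.p i * d.q i - ∑ i, d.p i * c.q i
  rcases ha with h | h
  · obtain ⟨i, hi⟩ := Function.ne_iff.1 h
    refine ⟨⟨0, Pi.single i (s / a.p i), 0⟩, ?_⟩
    rw [heis_comm]
    simp only [Heis.mk.injEq, true_and]
    simp only [Pi.zero_apply, zero_mul, Finset.sum_const_zero, sub_zero]
    rw [Finset.sum_eq_single i]
    · simp only [Pi.single_eq_same]
      simp only [Pi.zero_apply] at hi
      field_simp
    · intro j _ hj
      rw [Pi.single_eq_of_ne hj, mul_zero]
    · simp
  · obtain ⟨i, hi⟩ := Function.ne_iff.1 h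
    refine ⟨⟨Pi.single i (-s / a.q i), 0, 0⟩, ?_⟩
    rw [heis_comm]
    simp only [Heis.mk.injEq, true_and]
    simp only [Pi.zero_apply, mul_zero, Finset.sum_const_zero, zero_sub]
    rw [Finset.sum_eq_single i]
    · simp only [Pi.single_eq_same]
      simp only [Pi.zero_apply] at hi
      field_simp
    · intro j _ hj
      rw [Pi.single_eq_of_ne hj, zero_mul]
    · simp

/-- `N` has no Heisenberg direct factor, not even as an abstract group. -/
theorem no_heisenberg (n : ℕ) (hn : 1 ≤ n) (K : Type) [Group K] : IsEmpty (N ≃* Heis n × K) := by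
  refine ⟨fun e => ?_⟩
  set X : N := of ![1, 0, 0, 0, 0, 0] with hX
  set Y : N := of ![0, 1, 0, 0, 0, 0] with hY
  set xh := e.symm ((e X).1, 1) with hxh
  set xk := e.symm (1, (e X).2) with hxk
  set yh := e.symm ((e Y).1, 1) with hyh
  set yk := e.symm (1, (e Y).2) with hyk
  have hcomm : ∀ (a : Heis n) (b : K), e.symm (a, 1) * e.symm (1, b) =
      e.symm (1, b) * e.symm (a, 1) := by
    intro a b
    rw [← map_mul, ← map_mul]
    simp
  have hw : ⁅X, Y⁆ = ⁅xh, yh⁆ * ⁅xk, yk⁆ := by
    apply e.injective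
    rw [map_mul, map_commutatorElement, map_commutatorElement, map_commutatorElement]
    simp only [hxh, hxk, hyh, hyk, MulEquiv.apply_symm_apply]
    refine Prod.ext ?_ ?_
    · simp [commutatorElement_def]
    · simp [commutatorElement_def]
  have h2 := congrArg (fun z : N => z.co 2) hw
  rw [co2_mul, comm_co2, comm_co2, comm_co2, (comm_mem xh yh).1] at h2
  have hXY : X.co 0 * Y.co 1 - Y.co 0 * X.co 1 = 1 := by simp [hX, hY]
  rw [hXY] at h2
  by_cases hk : xk.co 0 * yk.co 1 - yk.co 0 * xk.co 1 = 0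
  · -- the other factor is central
    have hh : xh.co 0 * yh.co 1 - yh.co 0 * xh.co 1 = 1 := by linarith
    have hKc : ∀ (b : K) (g : N), e.symm (1, b) * g = g * e.symm (1, b) := by
      intro b g
      apply central_of_co
      exact central_of_commute (by rw [hh]; exact one_ne_zero) (hcomm _ _) (hcomm _ _)
    have hKc' : ∀ (b : K), (e.symm (1, b)).co 0 = 0 ∧ (e.symm (1, b)).co 1 = 0 ∧
        (e.symm (1, b)).co 3 = 0 ∧ (e.symm (1, b)).co 4 = 0 := by
      intro b
      exact central_of_commute (by rw [hh]; exact one_ne_zero) (hcomm _ _) (hcomm _ _)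
    set x : N := of ![0, 0, 0, 1, 0, 0] with hx
    have hdec : x = e.symm ((e x).1, 1) * e.symm (1, (e x).2) := by
      rw [← map_mul]
      simp
    have hnc : (e x).1.p ≠ 0 ∨ (e x).1.q ≠ 0 := by
      by_contra hcon
      push Not at hcon
      obtain ⟨hp, hq⟩ := hcon
      have h3 : x * Y = Y * x := by
        apply e.injective
        rw [map_mul, map_mul]
        refine Prod.ext ?_ ?_
        · ext i
          · simp [Heis.mul_def, hp]
          · simp [Heis.mul_def, hq]
          · simp [Heis.mul_def, hp, hq, add_comm]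
        · have h4 := hKc (e x).2 Y
          have h5 := congrArg (fun z => (e z).2) h4
          simpa using h5
      rw [commute_iff] at h3
      simp [hx, hY] at h3
    obtain ⟨b, hb⟩ := heis_surj (e x).1 (e X).1 (e Y).1 hnc
    have h6 : ⁅e.symm ((e x).1, 1), e.symm (b, 1)⁆ = ⁅xh, yh⁆ := by
      apply e.injective
      rw [map_commutatorElement, map_commutatorElement]
      simp only [hxh, hyh, MulEquiv.apply_symm_apply]
      refine Prod.ext ?_ ?_
      · have : ∀ a b : Heis n × K, ⁅a, b⁆.1 = ⁅a.1, b.1⁆ := fun a b => rfl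
        rw [this, this]
        exact hb
      · simp [commutatorElement_def]
    have h7 := congrArg (fun z : N => z.co 2) h6
    rw [comm_co2, comm_co2, hh] at h7
    have h8 : (e.symm ((e x).1, 1)).co 0 = 0 := by
      have := congrArg (fun z : N => z.co 0) hdec
      simp only [co0_mul, (hKc' _).1, add_zero] at this
      rw [← this]
      simp [hx]
    have h9 : (e.symm ((e x).1, 1)).co 1 = 0 := by
      have := congrArg (fun z : N => z.co 1) hdec
      simp only [co1_mul, (hKc' _).2.1, add_zero] at this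
      rw [← this]
      simp [hx]
    rw [h8, h9] at h7
    simp at h7
  · -- the Heisenberg factor would be central
    have hHc : ∀ (a : Heis n) (g : N), e.symm (a, 1) * g = g * e.symm (a, 1) := by
      intro a g
      apply central_of_co
      exact central_of_commute hk (hcomm _ _).symm (hcomm _ _).symm
    have h3 : ∀ a b : Heis n, a * b = b * a := by
      intro a b
      have h4 := hHc a (e.symm (b, 1))
      have h5 := congrArg (fun z => (e z).1) h4
      simpa using h5
    have h4 := h3 ⟨fun _ => 1, 0, 0⟩ ⟨0, fun _ => 1, 0⟩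
    have h5 := congrArg Heis.z h4
    simp [Heis.mul_def] at h5
    omega

end N

end Pool.Agent.W530.Carnot
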