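import Mathlib
import Pool.Agent.W530.Carnot.Alg

/-! The map `F` and its action on horizontal curves. -/

open scoped Manifold ContDiff ENNReal NNReal Topology
open Set MeasureTheory

noncomputable section

namespace Pool.Agent.W530.Carnot

/-- Points of the Heisenberg group. -/
abbrev P3 : Type := Fin 3 → ℝ

/-- partial derivatives -/
def D (i : Fin 3) (f : P3 → ℝ) (p : P3) : ℝ := fderiv ℝ f p (Pi.single i 1)

/-- the left-invariant vector field `Y = ∂_y + x ∂_z` -/
def Yd (f : P3 → ℝ) (p : P3) : ℝ := D 1 f p + p 0 * D 2 f p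

lemma contDiff_D {f : P3 → ℝ} (hf : ContDiff ℝ ∞ f) (i : Fin 3) : ContDiff ℝ ∞ (D i f) :=
  (hf.fderiv_right (m := ∞) (by simp)).clm_apply contDiff_const

lemma contDiff_Yd {f : P3 → ℝ} (hf : ContDiff ℝ ∞ f) : ContDiff ℝ ∞ (Yd f) :=
  (contDiff_D hf 1).add ((contDiff_apply ℝ ℝ 0).mul (contDiff_D hf 2))

lemma compact_D {f : P3 → ℝ} (hf : HasCompactSupport f) (i : Fin 3) : HasCompactSupport (D i f) :=
  hf.fderiv_apply ℝ _

lemma compact_Yd {f : P3 → ℝ} (hf : HasCompactSupport f) : HasCompactSupport (Yd f) :=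
  (compact_D hf 1).add (HasCompactSupport.mul_left (f := fun p : P3 => p 0) (compact_D hf 2))

lemma fderiv_horizontal {f : P3 → ℝ} (p : P3) (a b : ℝ) :
    fderiv ℝ f p ![a, b, p 0 * b] = a * D 0 f p + b * Yd f p := by
  have e : (![a, b, p 0 * b] : P3) = a • Pi.single 0 1 + b • Pi.single 1 1 +
      (p 0 * b) • Pi.single 2 1 := by
    ext i
    fin_cases i <;> simp
  rw [e, map_add, map_add, map_smul, map_smul, map_smul]
  unfold Yd D
  simp only [smul_eq_mul]
  ring

/-- a compactly supported smooth function has bounded horizontal derivatives -/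
lemma bound_horizontal {f : P3 → ℝ} (hf : ContDiff ℝ ∞ f) (hc : HasCompactSupport f) :
    ∃ K : ℝ, 0 ≤ K ∧ ∀ (p : P3) (a b : ℝ), |fderiv ℝ f p ![a, b, p 0 * b]| ≤ K * (|a| + |b|) := by
  obtain ⟨K1, h1⟩ := (contDiff_D hf 0).continuous.bounded_above_of_compact_support (compact_D hc 0)
  obtain ⟨K2, h2⟩ := (contDiff_Yd hf).continuous.bounded_above_of_compact_support (compact_Yd hc)
  have hK1 : 0 ≤ K1 := (norm_nonneg _).trans (h1 0)
  have hK2 : 0 ≤ K2 := (norm_nonneg _).trans (h2 0)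
  refine ⟨K1 + K2, by positivity, fun p a b => ?_⟩
  rw [fderiv_horizontal]
  have h3 := h1 p
  have h4 := h2 p
  rw [Real.norm_eq_abs] at h3 h4
  calc |a * D 0 f p + b * Yd f p| ≤ |a * D 0 f p| + |b * Yd f p| := abs_add_le _ _
    _ = |a| * |D 0 f p| + |b| * |Yd f p| := by rw [abs_mul, abs_mul]
    _ ≤ |a| * K1 + |b| * K2 := by gcongr
    _ ≤ (K1 + K2) * (|a| + |b|) := by
        have := abs_nonneg a
        have := abs_nonneg b
        nlinarith [mul_nonneg hK2 (abs_nonneg a), mul_nonneg hK1 (abs_nonneg b)]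

/-- the projection to the Heisenberg group -/
def pr : E →L[ℝ] P3 :=
  LinearMap.toContinuousLinearMap
    { toFun := fun g : E => ![g 0, g 1, g 2]
      map_add' := by
        intro x y
        ext i
        fin_cases i <;> simp
      map_smul' := by
        intro c x
        ext i
        fin_cases i <;> simp }

lemma pr_apply (g : E) : pr g = ![g 0, g 1, g 2] := rfl

lemma pr_A (g v : E) (hv : v ∈ N.strat 1) : pr (A g v) = ![v 0, v 1, (pr g) 0 * v 1] := by
  have h2 := (hv.2 (by norm_num)).1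
  rw [pr_apply, pr_apply, A0, A1, A2, h2]
  simp

/-- the first component of the vector field -/
def al (f : P3 → ℝ) : P3 → ℝ := Yd f
/-- the second component of the vector field -/
def be (f : P3 → ℝ) : P3 → ℝ := fun p => - D 0 f p
/-- the third component of the vector field -/
def ka (f : P3 → ℝ) : P3 → ℝ := fun p => f p - p 0 * D 0 f p

/-- the embedding of the last three coordinates -/
def emb (a b c : ℝ) : E := ![0, 0, 0, a, b, c]

/-- The map `F`, on coordinates: `(x, y, z, a, b, c)` is sent to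
`(x, y, z, a + f_y + x f_z, b - f_x, c + f - x f_x)`. -/
def FE (f : P3 → ℝ) (g : E) : E := g + emb (al f (pr g)) (be f (pr g)) (ka f (pr g))

lemma contDiff_emb {F : Type*} [NormedAddCommGroup F] [NormedSpace ℝ F] {a b c : F → ℝ}
    (ha : ContDiff ℝ ∞ a) (hb : ContDiff ℝ ∞ b) (hc : ContDiff ℝ ∞ c) :
    ContDiff ℝ ∞ (fun p => emb (a p) (b p) (c p)) := by
  rw [contDiff_pi]
  intro i
  fin_cases i
  · exact contDiff_const
  · exact contDiff_const
  · exact contDiff_const
  · exact ha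
  · exact hb
  · exact hc

lemma hasFDerivAt_emb {F : Type*} [NormedAddCommGroup F] [NormedSpace ℝ F] {a b c : F → ℝ}
    {a' b' c' : F →L[ℝ] ℝ} {x : F}
    (ha : HasFDerivAt a a' x) (hb : HasFDerivAt b b' x) (hc : HasFDerivAt c c' x) :
    HasFDerivAt (fun p => emb (a p) (b p) (c p))
      (ContinuousLinearMap.pi ![0, 0, 0, a', b', c']) x := by
  rw [hasFDerivAt_pi']
  intro i
  fin_cases i
  · exact hasFDerivAt_const 0 x
  · exact hasFDerivAt_const 0 x
  · exact hasFDerivAt_const 0 x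
  · exact ha
  · exact hb
  · exact hc

variable {f : P3 → ℝ}

lemma contDiff_be (hf : ContDiff ℝ ∞ f) : ContDiff ℝ ∞ (be f) := (contDiff_D hf 0).neg

lemma contDiff_ka (hf : ContDiff ℝ ∞ f) : ContDiff ℝ ∞ (ka f) :=
  hf.sub ((contDiff_apply ℝ ℝ 0).mul (contDiff_D hf 0))

lemma contDiff_FE (hf : ContDiff ℝ ∞ f) : ContDiff ℝ ∞ (FE f) := by
  unfold FE
  exact contDiff_id.add (contDiff_emb ((contDiff_Yd hf).comp pr.contDiff)
    ((contDiff_be hf).comp pr.contDiff) ((contDiff_ka hf).comp pr.contDiff))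

lemma fderiv_ka (hf : ContDiff ℝ ∞ f) (p : P3) (a b : ℝ) :
    fderiv ℝ (ka f) p ![a, b, p 0 * b] = b * al f p + p 0 * fderiv ℝ (be f) p ![a, b, p 0 * b] := by
  have h1 : HasFDerivAt f (fderiv ℝ f p) p := (hf.differentiable (by simp) p).hasFDerivAt
  have h2 : HasFDerivAt (D 0 f) (fderiv ℝ (D 0 f) p) p :=
    ((contDiff_D hf 0).differentiable (by simp) p).hasFDerivAt
  have h3 : HasFDerivAt (fun q : P3 => q 0) (ContinuousLinearMap.proj 0 : P3 →L[ℝ] ℝ) p :=
    hasFDerivAt_apply 0 p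
  have h4 : HasFDerivAt (ka f) _ p := h1.sub (h3.mul h2)
  have h5 : HasFDerivAt (be f) _ p := h2.neg
  rw [h4.fderiv, h5.fderiv]
  simp only [sub_apply, add_apply, smul_apply, neg_apply, ContinuousLinearMap.proj_apply,
    smul_eq_mul]
  rw [fderiv_horizontal]
  simp only [Matrix.cons_val_zero, al]
  ring

/-- the action of the differential of `F` on left-invariant vector fields -/
def M (f : P3 → ℝ) (g v : E) : E :=
  ![v 0, v 1, v 2, v 3 + fderiv ℝ (al f) (pr g) ![v 0, v 1, (pr g) 0 * v 1],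
    v 4 + fderiv ℝ (be f) (pr g) ![v 0, v 1, (pr g) 0 * v 1], v 5]

lemma M_mem (g v : E) (hv : v ∈ N.strat 1) : M f g v ∈ N.strat 1 := by
  refine ⟨fun h => absurd rfl h, fun _ => ?_⟩
  have h := hv.2 (by norm_num)
  exact ⟨h.1, h.2⟩

lemma fderiv_FE (hf : ContDiff ℝ ∞ f) (g v : E) (hv : v ∈ N.strat 1) :
    fderiv ℝ (FE f) g (A g v) = A (FE f g) (M f g v) := by
  have hd : ∀ {h : P3 → ℝ}, ContDiff ℝ ∞ h →
      HasFDerivAt (fun x : E => h (pr x)) ((fderiv ℝ h (pr g)).comp pr) g := by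
    intro h hh
    exact (hh.differentiable (by simp) (pr g)).hasFDerivAt.comp g pr.hasFDerivAt
  have h1 : HasFDerivAt (FE f) _ g := (hasFDerivAt_id g).add
    (hasFDerivAt_emb (hd (contDiff_Yd hf)) (hd (contDiff_be hf)) (hd (contDiff_ka hf)))
  rw [h1.fderiv]
  have hv2 := (hv.2 (by norm_num)).1
  have hv5 := (hv.2 (by norm_num)).2
  have hg0 : (pr g) 0 = g 0 := rfl
  have hF0 : FE f g 0 = g 0 := by
    change g 0 + 0 = g 0
    ring
  have hF3 : FE f g 3 = g 3 + al f (pr g) := rfl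
  apply ext6E
  · simp [A0, M]
  · simp [A1, M]
  · simp [A2, M, hF0]
  · simp [A3, M, pr_A g v hv, al]
  · simp [A4, M, pr_A g v hv]
  · simp only [add_apply, ContinuousLinearMap.coe_pi', Pi.add_apply,
      ContinuousLinearMap.id_apply, A5, M, m5, m4, m1, hv5, hF0, hF3]
    change 0 + g 0 * v 4 + g 3 * v 1 + (fderiv ℝ (ka f) (pr g)) (pr (A g v)) = _
    rw [pr_A g v hv, fderiv_ka hf, hg0]
    ring

lemma leftField_eq (v : E) (g : N) : leftField v g = A g.co v :=
  N.mulInvariantVectorField_eq v g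

lemma dirDeriv_eq (φ : E → ℝ) (g : N) (w : E) :
    dirDeriv (fun x : N => φ x.co) g w = fderiv ℝ φ g.co w := by
  have h : mfderiv 𝓘(ℝ, E) 𝓘(ℝ, ℝ) φ g.co = fderiv ℝ φ g.co := mfderiv_eq_fderiv
  exact congrArg (fun L => (L w : ℝ)) h

/-- horizontal curves of `N`, in coordinates -/
lemma isHorizontal_iff (γ : ℝ → N) (u : ℝ → E) :
    IsHorizontal (N.strat 1 : Set E) γ u ↔ (ContinuousOn (fun t => (γ t).co) (Icc 0 1) ∧
      (∀ t ∈ Icc (0 : ℝ) 1, u t ∈ N.strat 1) ∧ IntervalIntegrable u volume 0 1 ∧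
      ∀ φ : E → ℝ, ContDiff ℝ ∞ φ → ∀ t ∈ Icc (0 : ℝ) 1,
        φ (γ t).co = φ (γ 0).co +
          ∫ s in (0 : ℝ)..t, fderiv ℝ φ (γ s).co (A (γ s).co (u s))) := by
  have key : ∀ (φ : E → ℝ) (s : ℝ), dirDeriv (fun x : N => φ x.co) (γ s)
      (leftField (u s) (γ s)) = fderiv ℝ φ (γ s).co (A (γ s).co (u s)) := by
    intro φ s
    rw [leftField_eq, dirDeriv_eq]
  constructor
  · rintro ⟨h1, h0, h2, h3⟩
    refine ⟨h1, h0, h2, fun φ hφ t ht => ?_⟩
    have h4 := h3 (fun x : N => φ x.co) hφ.contMDiff t ht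
    refine h4.trans ?_
    congr 1
    apply intervalIntegral.integral_congr
    intro s _
    exact key φ s
  · rintro ⟨h1, h0, h2, h3⟩
    refine ⟨h1, h0, h2, fun φ hφ t ht => ?_⟩
    have h5 : ContDiff ℝ ∞ (fun x : E => φ (N.of x)) := contMDiff_iff_contDiff.1 hφ
    have h4 := h3 (fun x : E => φ (N.of x)) h5 t ht
    refine h4.trans ?_
    congr 1
    apply intervalIntegral.integral_congr
    intro s _
    exact (key (fun x : E => φ (N.of x)) s).symm

/-- The map `F` on the group. -/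
def Fmap (f : P3 → ℝ) (g : N) : N := N.of (FE f g.co)

lemma continuous_fder {h : P3 → ℝ} (hh : ContDiff ℝ ∞ h) :
    Continuous (D 0 h) ∧ Continuous (Yd h) :=
  ⟨(contDiff_D hh 0).continuous, (contDiff_Yd hh).continuous⟩

lemma integrable_M (hf : ContDiff ℝ ∞ f) {γ : ℝ → E} {u : ℝ → E}
    (hγ : ContinuousOn γ (Icc 0 1)) (hu : IntervalIntegrable u volume 0 1) :
    IntervalIntegrable (fun s => M f (γ s) (u s)) volume 0 1 := by
  have hui : ∀ i : Fin 6, IntervalIntegrable (fun s => u s i) volume 0 1 := by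
    intro i
    exact ⟨(ContinuousLinearMap.proj (R := ℝ) (φ := fun _ : Fin 6 => ℝ) i).integrable_comp hu.1,
      (ContinuousLinearMap.proj (R := ℝ) (φ := fun _ : Fin 6 => ℝ) i).integrable_comp hu.2⟩
  have hder : ∀ {h : P3 → ℝ}, ContDiff ℝ ∞ h → IntervalIntegrable
      (fun s => fderiv ℝ h (pr (γ s)) ![u s 0, u s 1, (pr (γ s)) 0 * u s 1]) volume 0 1 := by
    intro h hh
    obtain ⟨c0, c1⟩ := continuous_fder hh
    have hprγ : ContinuousOn (fun s => pr (γ s)) (uIcc 0 1) := by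
      rw [uIcc_of_le zero_le_one]
      exact pr.continuous.comp_continuousOn hγ
    have e : (fun s => fderiv ℝ h (pr (γ s)) ![u s 0, u s 1, (pr (γ s)) 0 * u s 1]) =
        fun s => u s 0 * D 0 h (pr (γ s)) + u s 1 * Yd h (pr (γ s)) := by
      funext s
      rw [fderiv_horizontal]
    rw [e]
    exact ((hui 0).mul_continuousOn (c0.comp_continuousOn hprγ)).add
      ((hui 1).mul_continuousOn (c1.comp_continuousOn hprγ))
  have hcomp : ∀ i : Fin 6, IntervalIntegrable (fun s => M f (γ s) (u s) i) volume 0 1 := by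
    intro i
    fin_cases i
    · exact hui 0
    · exact hui 1
    · exact hui 2
    · exact (hui 3).add (hder (contDiff_Yd hf))
    · exact (hui 4).add (hder (contDiff_be hf))
    · exact hui 5
  constructor
  · exact Integrable.of_eval fun i => (hcomp i).1
  · exact Integrable.of_eval fun i => (hcomp i).2

lemma horizontal_map (hf : ContDiff ℝ ∞ f) {γ : ℝ → N} {u : ℝ → E}
    (h : IsHorizontal (N.strat 1 : Set E) γ u) :
    IsHorizontal (N.strat 1 : Set E) (fun t => Fmap f (γ t)) (fun t => M f (γ t).co (u t)) := by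
  have hmem := h.mem
  rw [isHorizontal_iff] at h ⊢
  obtain ⟨h1, h0, h2, h3⟩ := h
  refine ⟨(contDiff_FE hf).continuous.comp_continuousOn h1, fun t ht => M_mem _ _ (h0 t ht),
    integrable_M hf h1 h2, ?_⟩
  intro φ hφ t ht
  have h4 := h3 (fun x => φ (FE f x)) (hφ.comp (contDiff_FE hf)) t ht
  refine h4.trans ?_
  congr 1
  apply intervalIntegral.integral_congr
  intro s hs
  have hs' : s ∈ Icc (0 : ℝ) 1 := by
    rw [uIcc_of_le ht.1] at hs
    exact ⟨hs.1, hs.2.trans ht.2⟩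
  have h5 : fderiv ℝ (fun x => φ (FE f x)) (γ s).co =
      (fderiv ℝ φ (FE f (γ s).co)).comp (fderiv ℝ (FE f) (γ s).co) :=
    fderiv_comp (γ s).co (hφ.differentiable (by simp) _)
      ((contDiff_FE hf).differentiable (by simp) _)
  change (fderiv ℝ (fun x => φ (FE f x)) (γ s).co) (A (γ s).co (u s)) =
    fderiv ℝ φ (FE f (γ s).co) (A (FE f (γ s).co) (M f (γ s).co (u s)))
  rw [h5, ContinuousLinearMap.comp_apply, fderiv_FE hf _ _ (h0 s hs')]

end Pool.Agent.W530.Carnot
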