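import Mathlib
import Pool.Agent.W530.Carnot.Map

/-! The Carnot distances of `N`: finiteness, and the map `F` is biLipschitz. -/

open scoped Manifold ContDiff ENNReal NNReal Topology
open Set MeasureTheory

noncomputable section

namespace Pool.Agent.W530.Carnot

/-- the linear projection to the first stratum -/
def P1 : E →ₗ[ℝ] E where
  toFun w := ![w 0, w 1, 0, w 3, w 4, 0]
  map_add' := by
    intro x y
    exact ext6E rfl rfl (add_zero (0 : ℝ)).symm rfl rfl (add_zero (0 : ℝ)).symm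
  map_smul' := by
    intro c x
    exact ext6E rfl rfl (mul_zero c).symm rfl rfl (mul_zero c).symm

lemma P1_mem (w : E) : P1 w ∈ N.strat 1 :=
  ⟨fun h => absurd rfl h, fun _ => ⟨rfl, rfl⟩⟩

lemma P1_eq {v : E} (hv : v ∈ N.strat 1) : P1 v = v := by
  have h := hv.2 (by norm_num)
  exact ext6E rfl rfl h.1.symm rfl rfl h.2.symm

variable {ν : E → ℝ}

lemma norm_zero' (hν : IsNormOn (N.strat 1) ν) : ν 0 = 0 := by
  have h := hν.smul_eq 0 0 (Submodule.zero_mem _)
  rw [smul_zero, abs_zero, zero_mul] at h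
  exact h

lemma norm_nonneg' (hν : IsNormOn (N.strat 1) ν) {v : E} (hv : v ∈ N.strat 1) : 0 ≤ ν v := by
  by_cases h : v = 0
  · rw [h, norm_zero' hν]
  · exact (hν.pos v hv h).le

/-- extension of a norm on the first stratum to a seminorm -/
def ext (hν : IsNormOn (N.strat 1) ν) : Seminorm ℝ E :=
  Seminorm.of (fun w => ν (P1 w))
    (fun x y => by
      rw [map_add]
      exact hν.add_le _ (P1_mem x) _ (P1_mem y))
    (fun c x => by
      rw [map_smul, Real.norm_eq_abs]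
      exact hν.smul_eq c _ (P1_mem x))

lemma ext_apply (hν : IsNormOn (N.strat 1) ν) {v : E} (hv : v ∈ N.strat 1) :
    ext hν v = ν v := by
  change ν (P1 v) = ν v
  rw [P1_eq hv]

lemma continuous_ext (hν : IsNormOn (N.strat 1) ν) : Continuous (ext hν) :=
  ((ext hν).convexOn.locallyLipschitz).continuous

lemma ext_le (hν : IsNormOn (N.strat 1) ν) : ∃ C : ℝ, ∀ w : E, ext hν w ≤ C * ‖w‖ := by
  obtain ⟨C, hC⟩ := (isCompact_sphere (0 : E) 1).exists_bound_of_continuousOn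
    (continuous_ext hν).continuousOn
  refine ⟨C, fun w => ?_⟩
  by_cases hw : w = 0
  · subst hw
    simp
  · have hn : 0 < ‖w‖ := norm_pos_iff.2 hw
    have h1 := hC (‖w‖⁻¹ • w) (by
      rw [mem_sphere_zero_iff_norm, norm_smul, norm_inv, norm_norm, inv_mul_cancel₀ hn.ne'])
    rw [map_smul_eq_mul, norm_inv, norm_norm, norm_mul, norm_inv, norm_norm,
      Real.norm_of_nonneg (apply_nonneg _ _), inv_mul_le_iff₀ hn] at h1
    linarith [mul_comm ‖w‖ C]

lemma norm_bound (hν : IsNormOn (N.strat 1) ν) :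
    ∃ C : ℝ, 0 ≤ C ∧ ∀ v ∈ N.strat 1, ‖v‖ ≤ C * ν v := by
  set S : Set E := Metric.sphere (0 : E) 1 ∩ (N.strat 1 : Set E) with hS
  have hSc : IsCompact S := (isCompact_sphere (0 : E) 1).inter_right
    (Submodule.closed_of_finiteDimensional _)
  have hpos : ∀ w ∈ S, 0 < ext hν w := by
    rintro w ⟨hw1, hw2⟩
    rw [ext_apply hν hw2]
    apply hν.pos w hw2
    intro h3
    rw [h3] at hw1
    simp at hw1
  have hne : S.Nonempty := by
    refine ⟨![1, 0, 0, 0, 0, 0], ?_, by simp [N.mem_strat]⟩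
    rw [mem_sphere_zero_iff_norm]
    apply le_antisymm
    · rw [pi_norm_le_iff_of_nonneg zero_le_one]
      intro i
      fin_cases i <;> simp
    · have := norm_le_pi_norm (![1, 0, 0, 0, 0, 0] : E) 0
      simpa using this
  obtain ⟨w0, hw0, hmin⟩ := hSc.exists_isMinOn hne (continuous_ext hν).continuousOn
  set m := ext hν w0 with hm
  have hm0 : 0 < m := hpos w0 hw0
  refine ⟨m⁻¹, by positivity, fun v hv => ?_⟩
  by_cases hw : v = 0
  · rw [hw, norm_zero, norm_zero' hν, mul_zero]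
  · have hn : 0 < ‖v‖ := norm_pos_iff.2 hw
    have h1 : (‖v‖⁻¹ • v) ∈ S := by
      refine ⟨?_, Submodule.smul_mem _ _ hv⟩
      rw [mem_sphere_zero_iff_norm, norm_smul, norm_inv, norm_norm, inv_mul_cancel₀ hn.ne']
    have h2 : m ≤ ext hν (‖v‖⁻¹ • v) := hmin h1
    rw [map_smul_eq_mul, norm_inv, norm_norm, ext_apply hν hv, le_inv_mul_iff₀ hn] at h2
    rw [le_inv_mul_iff₀ hm0]
    linarith [mul_comm ‖v‖ m]

lemma integrable_norm (hν : IsNormOn (N.strat 1) ν) {u : ℝ → E}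
    (hm : ∀ t ∈ Icc (0 : ℝ) 1, u t ∈ N.strat 1)
    (hu : IntervalIntegrable u volume 0 1) :
    IntervalIntegrable (fun s => ν (u s)) volume 0 1 := by
  obtain ⟨C, hC⟩ := ext_le hν
  have h1 : IntervalIntegrable (fun s => ext hν (u s)) volume 0 1 := by
    refine (hu.norm.const_mul C).mono_fun'
      ((continuous_ext hν).comp_aestronglyMeasurable hu.def'.aestronglyMeasurable)
      (Filter.Eventually.of_forall fun s => ?_)
    change ‖ext hν (u s)‖ ≤ C * ‖u s‖
    rw [Real.norm_of_nonneg (apply_nonneg _ _)]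
    exact hC _
  refine h1.congr fun s hs => ?_
  rw [uIoc_of_le zero_le_one] at hs
  exact ext_apply hν (hm s ⟨hs.1.le, hs.2⟩)

/-- basis vectors of the first stratum -/
def e3 : E := ![0, 0, 0, 1, 0, 0]
/-- basis vectors of the first stratum -/
def e4 : E := ![0, 0, 0, 0, 1, 0]

lemma e3_mem : e3 ∈ N.strat 1 := ⟨fun h => absurd rfl h, fun _ => ⟨rfl, rfl⟩⟩
lemma e4_mem : e4 ∈ N.strat 1 := ⟨fun h => absurd rfl h, fun _ => ⟨rfl, rfl⟩⟩

variable {f : P3 → ℝ}

lemma compact_neg {h : P3 → ℝ} (hc : HasCompactSupport h) : HasCompactSupport (-h) :=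
  hc.comp_left (g := fun r : ℝ => -r) neg_zero

lemma compact_be (hc : HasCompactSupport f) : HasCompactSupport (be f) :=
  compact_neg (compact_D hc 0)

lemma M_eq (g v : E) : M f g v = v +
    (fderiv ℝ (al f) (pr g) ![v 0, v 1, (pr g) 0 * v 1]) • e3 +
    (fderiv ℝ (be f) (pr g) ![v 0, v 1, (pr g) 0 * v 1]) • e4 := by
  apply ext6E
  · change v 0 = v 0 + _ * 0 + _ * 0
    ring
  · change v 1 = v 1 + _ * 0 + _ * 0
    ring
  · change v 2 = v 2 + _ * 0 + _ * 0
    ring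
  · change v 3 + _ = v 3 + _ * 1 + _ * 0
    ring
  · change v 4 + _ = v 4 + _ * 0 + _ * 1
    ring
  · change v 5 = v 5 + _ * 0 + _ * 0
    ring

lemma norm_M_le (hf : ContDiff ℝ ∞ f) (hc : HasCompactSupport f)
    (hν : IsNormOn (N.strat 1) ν) :
    ∃ L : ℝ≥0, ∀ g, ∀ v ∈ N.strat 1, ν (M f g v) ≤ L * ν v := by
  obtain ⟨C, hC0, hC⟩ := norm_bound hν
  obtain ⟨K1, hK1, h1⟩ := bound_horizontal (contDiff_Yd hf) (compact_Yd hc)
  obtain ⟨K2, hK2, h2⟩ := bound_horizontal (contDiff_be hf) (compact_be hc)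
  have p3 := norm_nonneg' hν e3_mem
  have p4 := norm_nonneg' hν e4_mem
  refine ⟨⟨1 + (K1 * (2 * C)) * ν e3 + (K2 * (2 * C)) * ν e4, by positivity⟩,
    fun g v hv => ?_⟩
  rw [M_eq]
  have h3 : |v 0| + |v 1| ≤ 2 * C * ν v := by
    have h4 := norm_le_pi_norm v 0
    have h5 := norm_le_pi_norm v 1
    have h6 := hC v hv
    rw [Real.norm_eq_abs] at h4 h5
    linarith
  have h4 := (h1 (pr g) (v 0) (v 1)).trans (mul_le_mul_of_nonneg_left h3 hK1)
  have h5 := (h2 (pr g) (v 0) (v 1)).trans (mul_le_mul_of_nonneg_left h3 hK2)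
  have m3 : ∀ c : ℝ, c • e3 ∈ N.strat 1 := fun c => Submodule.smul_mem _ _ e3_mem
  have m4 : ∀ c : ℝ, c • e4 ∈ N.strat 1 := fun c => Submodule.smul_mem _ _ e4_mem
  refine (hν.add_le _ (Submodule.add_mem _ hv (m3 _)) _ (m4 _)).trans ?_
  refine (add_le_add (hν.add_le _ hv _ (m3 _)) le_rfl).trans ?_
  rw [hν.smul_eq _ _ e3_mem, hν.smul_eq _ _ e4_mem]
  have h6 := mul_le_mul_of_nonneg_right h4 p3
  have h7 := mul_le_mul_of_nonneg_right h5 p4
  change ν v + |fderiv ℝ (al f) (pr g) ![v 0, v 1, (pr g) 0 * v 1]| * ν e3 +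
    |fderiv ℝ (be f) (pr g) ![v 0, v 1, (pr g) 0 * v 1]| * ν e4 ≤
    (1 + (K1 * (2 * C)) * ν e3 + (K2 * (2 * C)) * ν e4) * ν v
  have h8 : |fderiv ℝ (al f) (pr g) ![v 0, v 1, (pr g) 0 * v 1]| * ν e3 ≤
    K1 * (2 * C * ν v) * ν e3 := h6
  nlinarith

lemma lipschitz_F (hf : ContDiff ℝ ∞ f) (hc : HasCompactSupport f)
    (hν : IsNormOn (N.strat 1) ν) : ∃ L : ℝ≥0, ∀ x y : N,
      ccEDist (N.strat 1 : Set E) ν (Fmap f x) (Fmap f y) ≤
        L * ccEDist (N.strat 1 : Set E) ν x y := by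
  obtain ⟨L, hL⟩ := norm_M_le hf hc hν
  refine ⟨L + 1, fun x y => ?_⟩
  have hL0 : ((L + 1 : ℝ≥0) : ℝ≥0∞) ≠ 0 := by
    rw [Ne, ENNReal.coe_eq_zero]
    positivity
  unfold ccEDist
  rw [ENNReal.mul_iInf_of_ne hL0 ENNReal.coe_ne_top]
  refine le_iInf fun γ => ?_
  rw [ENNReal.mul_iInf_of_ne hL0 ENNReal.coe_ne_top]
  refine le_iInf fun u => ?_
  rw [ENNReal.mul_iInf_of_ne hL0 ENNReal.coe_ne_top]
  refine le_iInf fun h => ?_
  obtain ⟨h1, h2, h3⟩ := h
  have h4 := horizontal_map hf h1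
  refine iInf_le_of_le (fun t => Fmap f (γ t)) ?_
  refine iInf_le_of_le (fun t => M f (γ t).co (u t)) ?_
  refine iInf_le_of_le ⟨h4, congrArg (Fmap f) h2, congrArg (Fmap f) h3⟩ ?_
  rw [← ENNReal.ofReal_coe_nnreal, ← ENNReal.ofReal_mul (by positivity)]
  apply ENNReal.ofReal_le_ofReal
  have h5 := integrable_norm hν h1.mem h1.integrable
  have h6 := integrable_norm hν h4.mem h4.integrable
  have h0 : 0 ≤ ∫ s in (0 : ℝ)..1, ν (u s) :=
    intervalIntegral.integral_nonneg zero_le_one fun t ht => norm_nonneg' hν (h1.mem t ht)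
  calc ∫ s in (0 : ℝ)..1, ν (M f (γ s).co (u s)) ≤ ∫ s in (0 : ℝ)..1, L * ν (u s) :=
        intervalIntegral.integral_mono_on zero_le_one h6 (h5.const_mul _)
          fun s hs => hL _ _ (h1.mem s hs)
    _ = L * ∫ s in (0 : ℝ)..1, ν (u s) := by rw [intervalIntegral.integral_const_mul]
    _ ≤ (L + 1 : ℝ≥0) * ∫ s in (0 : ℝ)..1, ν (u s) := by
        rw [NNReal.coe_add, NNReal.coe_one]
        nlinarith

lemma D_neg (i : Fin 3) : D i (-f) = - D i f := by
  funext p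
  unfold D
  rw [fderiv_neg]
  rfl

lemma F_neg (g : N) : Fmap (-f) (Fmap f g) = g := by
  have hp : pr (FE f g.co) = pr g.co := by
    ext i
    fin_cases i
    · exact add_zero (g.co 0)
    · exact add_zero (g.co 1)
    · exact add_zero (g.co 2)
  apply N.ext'
  change FE (-f) (FE f g.co) = g.co
  conv_lhs => rw [FE]
  rw [hp]
  unfold FE al be ka Yd
  rw [D_neg, D_neg, D_neg]
  set q := pr g.co
  apply ext6E
  · change g.co 0 + 0 + 0 = g.co 0
    ring
  · change g.co 1 + 0 + 0 = g.co 1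
    ring
  · change g.co 2 + 0 + 0 = g.co 2
    ring
  · change g.co 3 + (D 1 f q + q 0 * D 2 f q) + (-(D 1 f q) + q 0 * -(D 2 f q)) = g.co 3
    ring
  · change g.co 4 + -(D 0 f q) + -(-(D 0 f q)) = g.co 4
    ring
  · change g.co 5 + (f q - q 0 * D 0 f q) + (-(f q) - q 0 * -(D 0 f q)) = g.co 5
    ring

lemma bijective_F : Function.Bijective (Fmap f) := by
  have h2 : ∀ g, Fmap f (Fmap (-f) g) = g := by
    intro g
    have := F_neg (f := -f) g
    rwa [neg_neg] at this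
  exact ⟨Function.LeftInverse.injective F_neg, Function.RightInverse.surjective h2⟩

theorem biLipschitz_F (hf : ContDiff ℝ ∞ f) (hc : HasCompactSupport f)
    (hν : IsNormOn (N.strat 1) ν) :
    IsBiLipschitz (ccEDist (G := N) (N.strat 1 : Set E) ν) (Fmap f) := by
  obtain ⟨L1, h1⟩ := lipschitz_F hf hc hν
  obtain ⟨L2, h2⟩ := lipschitz_F (f := -f) hf.neg (compact_neg hc) hν
  refine ⟨max L1 L2, fun x y => ⟨(h1 x y).trans ?_, ?_⟩⟩
  · gcongr
    exact le_max_left _ _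
  · have h3 := h2 (Fmap f x) (Fmap f y)
    rw [F_neg, F_neg] at h3
    refine h3.trans ?_
    gcongr
    exact le_max_right _ _

/-! ### The map does not permute the cosets -/

lemma exists_D_ne (hf : ContDiff ℝ ∞ f) (hc : HasCompactSupport f) (h0 : f 0 ≠ 0) :
    ∃ p : P3, D 0 f p ≠ 0 := by
  by_contra hcon
  push Not at hcon
  have hd : ∀ x : ℝ, HasDerivAt (fun x : ℝ => f (x • Pi.single 0 1)) 0 x := by
    intro x
    have h1 : HasFDerivAt f (fderiv ℝ f (x • Pi.single 0 1)) (x • Pi.single 0 1) :=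
      (hf.differentiable (by simp) _).hasFDerivAt
    have h2 : HasDerivAt (fun x : ℝ => x • (Pi.single 0 1 : P3)) ((1 : ℝ) • Pi.single 0 1) x :=
      (hasDerivAt_id x).smul_const _
    have h3 := h1.comp_hasDerivAt x h2
    rw [one_smul] at h3
    have h4 : fderiv ℝ f (x • Pi.single 0 1) (Pi.single 0 1) = 0 := hcon _
    rw [h4] at h3
    exact h3
  have hconst : ∀ x y : ℝ, f (x • Pi.single 0 1) = f (y • Pi.single 0 1) :=
    is_const_of_deriv_eq_zero (fun x => (hd x).differentiableAt) (fun x => (hd x).deriv)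
  obtain ⟨R, hR⟩ := hc.isCompact.isBounded.exists_norm_le
  have h5 : f ((|R| + 1) • Pi.single 0 1) = 0 := by
    by_contra hne
    have h6 := hR _ (subset_tsupport f hne)
    have h7 : ‖((|R| + 1) • (Pi.single 0 1 : P3))‖ ≥ |R| + 1 := by
      have := norm_le_pi_norm ((|R| + 1) • (Pi.single 0 1 : P3)) 0
      simp only [Pi.smul_apply, Pi.single_eq_same, smul_eq_mul, mul_one] at this
      rw [Real.norm_of_nonneg (by positivity)] at this
      exact this
    linarith [le_abs_self R]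
  have h6 := hconst 0 (|R| + 1)
  rw [h5, zero_smul] at h6
  exact h0 h6

lemma not_permutes (hf : ContDiff ℝ ∞ f) (hc : HasCompactSupport f) (h0 : f 0 ≠ 0) :
    ¬ PermutesLeftCosets (Fmap f) ((⊤ : Subgroup N).lowerCentralSeries 1) := by
  rw [N.lcs1]
  intro hperm
  obtain ⟨p, hp⟩ := exists_D_ne hf hc h0
  obtain ⟨R, hR⟩ := (compact_D hc 0).isCompact.isBounded.exists_norm_le
  obtain ⟨h, hh⟩ := hperm (N.of ![p 0, p 1, p 2, 0, 0, 0])
  have key : ∀ s : ℝ, - D 0 f ![p 0, p 1, p 2 + s] = h.co 4 := by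
    intro s
    have h1 : Fmap f (N.of ![p 0, p 1, p 2, 0, 0, 0] * N.of ![0, 0, s, 0, 0, 0]) ∈
        {x | ∃ k ∈ N.N2, h * k = x} := by
      rw [← hh]
      exact ⟨_, ⟨_, ⟨rfl, rfl, rfl, rfl⟩, rfl⟩, rfl⟩
    obtain ⟨k, hk, hk2⟩ := h1
    have h2 := congrArg (fun x : N => x.co 4) hk2
    have h3 : (h * k).co 4 = h.co 4 := by
      rw [N.co4_mul, hk.2.2.2, add_zero]
    have e : pr (N.of ![p 0, p 1, p 2, 0, 0, 0] * N.of ![0, 0, s, 0, 0, 0]).co =
        ![p 0, p 1, p 2 + s] := by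
      ext i
      fin_cases i
      · simp [pr_apply, N.co0_mul]
      · simp [pr_apply, N.co1_mul]
      · simp [pr_apply, N.co2_mul]
    have h4 : (Fmap f (N.of ![p 0, p 1, p 2, 0, 0, 0] * N.of ![0, 0, s, 0, 0, 0])).co 4 =
        - D 0 f ![p 0, p 1, p 2 + s] := by
      change (N.of ![p 0, p 1, p 2, 0, 0, 0] * N.of ![0, 0, s, 0, 0, 0]).co 4 +
        be f (pr (N.of ![p 0, p 1, p 2, 0, 0, 0] * N.of ![0, 0, s, 0, 0, 0]).co) = _
      rw [e, N.co4_mul]
      simp [be]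
    rw [← h4, ← h3]
    exact h2.symm
  have k0 := key 0
  have e0 : (![p 0, p 1, p 2 + 0] : P3) = p := by
    ext i
    fin_cases i <;> simp
  rw [e0] at k0
  have k1 := key (|R| + 1 - p 2)
  have h5 : D 0 f ![p 0, p 1, p 2 + (|R| + 1 - p 2)] = 0 := by
    by_contra hne
    have h6 := hR _ (subset_tsupport _ hne)
    have h7 := norm_le_pi_norm (![p 0, p 1, p 2 + (|R| + 1 - p 2)] : P3) 2
    have h8 : (![p 0, p 1, p 2 + (|R| + 1 - p 2)] : P3) 2 = |R| + 1 := by
      change p 2 + (|R| + 1 - p 2) = |R| + 1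
      ring
    rw [h8, Real.norm_of_nonneg (by positivity)] at h7
    linarith [le_abs_self R]
  rw [h5] at k1
  rw [← k1] at k0
  simp at k0
  exact hp k0

/-- there is a smooth function with compact support on `R^3` that is not zero at the origin -/
lemma exists_bump : ∃ f : P3 → ℝ, ContDiff ℝ ∞ f ∧ HasCompactSupport f ∧ f 0 ≠ 0 := by
  let b : ContDiffBump (0 : P3) := ⟨1, 2, by norm_num, by norm_num⟩
  refine ⟨b, b.contDiff, b.hasCompactSupport, ?_⟩
  have : b (0 : P3) = 1 := b.one_of_mem_closedBall (Metric.mem_closedBall_self b.rIn_pos.le)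
  rw [this]
  exact one_ne_zero

end Pool.Agent.W530.Carnot
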