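import Mathlib
import Pool.Agent.W530.Carnot.Map

/-! Any two points of `N` are joined by a smooth horizontal curve. -/

open scoped Manifold ContDiff ENNReal NNReal Topology
open Set MeasureTheory

noncomputable section

namespace Pool.Agent.W530.Carnot

/-- a differentiable curve with continuous horizontal velocity is horizontal -/
lemma isHorizontal_of_hasDerivAt (γ : ℝ → E) (u : ℝ → E) (hu : Continuous u)
    (hu1 : ∀ t, u t ∈ N.strat 1) (hγ : ∀ t, HasDerivAt γ (A (γ t) (u t)) t) :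
    IsHorizontal (N.strat 1 : Set E) (fun t => N.of (γ t)) u := by
  have hγc : Continuous γ := continuous_iff_continuousAt.2 fun t => (hγ t).continuousAt
  rw [isHorizontal_iff]
  refine ⟨hγc.continuousOn, fun t _ => hu1 t, hu.intervalIntegrable 0 1, fun φ hφ t _ => ?_⟩
  have h1 : ∀ s, HasDerivAt (fun s => φ (γ s)) (fderiv ℝ φ (γ s) (A (γ s) (u s))) s := fun s =>
    ((hφ.differentiable (by simp) (γ s)).hasFDerivAt).comp_hasDerivAt s (hγ s)
  have hA : Continuous (fun s => A (γ s) (u s)) := by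
    have h2 : ContDiff ℝ 0 (fun p : E × E => A p.1 p.2) :=
      N.contDiff_A' _ _ contDiff_fst contDiff_snd
    exact h2.continuous.comp (hγc.prodMk hu)
  have h3 : Continuous (fun s => fderiv ℝ φ (γ s) (A (γ s) (u s))) :=
    ((hφ.continuous_fderiv (by simp)).comp hγc).clm_apply hA
  have h4 := intervalIntegral.integral_eq_sub_of_hasDerivAt (a := 0) (b := t)
    (fun s _ => h1 s) (h3.intervalIntegrable 0 t)
  change φ (γ t) = φ (γ 0) + ∫ s in (0 : ℝ)..t, fderiv ℝ φ (γ s) (A (γ s) (u s))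
  rw [h4]
  ring

lemma hasDerivAt_of_eq {f g : ℝ → ℝ} {f' g' x : ℝ} (h : HasDerivAt f f' x)
    (e : ∀ s, g s = f s) (e' : g' = f') : HasDerivAt g g' x := by
  have e2 : g = f := funext e
  rw [e2, e']
  exact h

/-- derivative of a polynomial of degree five -/
lemma hasDerivAt_poly (c0 c1 c2 c3 c4 c5 t : ℝ) :
    HasDerivAt (fun t : ℝ => c0 + c1 * t + c2 * t ^ 2 + c3 * t ^ 3 + c4 * t ^ 4 + c5 * t ^ 5)
      (c1 + 2 * c2 * t + 3 * c3 * t ^ 2 + 4 * c4 * t ^ 3 + 5 * c5 * t ^ 4) t := by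
  have h1 := ((hasDerivAt_id t).const_mul c1)
  have h2 := ((hasDerivAt_pow 2 t).const_mul c2)
  have h3 := ((hasDerivAt_pow 3 t).const_mul c3)
  have h4 := ((hasDerivAt_pow 4 t).const_mul c4)
  have h5 := ((hasDerivAt_pow 5 t).const_mul c5)
  have h := ((((h1.add h2).add h3).add h4).add h5).const_add c0
  refine hasDerivAt_of_eq h (fun s => ?_) ?_
  · simp only [Pi.add_apply, id_eq]
    ring
  · norm_num
    ring

/-- any two points are joined by a horizontal curve -/
theorem exists_horizontal (g h : N) : ∃ (γ : ℝ → N) (u : ℝ → E),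
    IsHorizontal (N.strat 1 : Set E) γ u ∧ γ 0 = g ∧ γ 1 = h := by
  set d0 := h.co 0 - g.co 0 with hd0
  set d1 := h.co 1 - g.co 1 with hd1
  set d2 := h.co 2 - g.co 2 with hd2
  set d3 := h.co 3 - g.co 3 with hd3
  set d4 := h.co 4 - g.co 4 with hd4
  set d5 := h.co 5 - g.co 5 with hd5
  set g0 := g.co 0 with hg0
  set g1 := g.co 1 with hg1
  set g2 := g.co 2 with hg2
  set g3 := g.co 3 with hg3
  set g4 := g.co 4 with hg4
  set g5 := g.co 5 with hg5
  set b := 30 * (d1 * (g0 + d0 / 2 + 1 / 6) - d2) with hb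
  set e := 30 * (d4 * (g0 + d0 / 2 + 1 / 6) + d1 * (g3 + d3 / 2) - d5) with he
  let X : ℝ → ℝ := fun t => g0 + (d0 + 1) * t - t ^ 2
  let Y : ℝ → ℝ := fun t => g1 + (d1 + b) * t - 3 * b * t ^ 2 + 2 * b * t ^ 3
  let Al : ℝ → ℝ := fun t => g3 + d3 * t
  let Bl : ℝ → ℝ := fun t => g4 + (d4 + e) * t - 3 * e * t ^ 2 + 2 * e * t ^ 3
  let Z : ℝ → ℝ := fun t => g2 + d1 * (g0 * t + (d0 + 1) * t ^ 2 / 2 - t ^ 3 / 3) +
    b * (g0 * (t - 3 * t ^ 2 + 2 * t ^ 3) + (d0 + 1) * (t ^ 2 / 2 - 2 * t ^ 3 + 3 * t ^ 4 / 2) -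
      (t ^ 3 / 3 - 3 * t ^ 4 / 2 + 6 * t ^ 5 / 5))
  let C : ℝ → ℝ := fun t => g5 + d4 * (g0 * t + (d0 + 1) * t ^ 2 / 2 - t ^ 3 / 3) +
    e * (g0 * (t - 3 * t ^ 2 + 2 * t ^ 3) + (d0 + 1) * (t ^ 2 / 2 - 2 * t ^ 3 + 3 * t ^ 4 / 2) -
      (t ^ 3 / 3 - 3 * t ^ 4 / 2 + 6 * t ^ 5 / 5)) +
    (d1 * (g3 * t + d3 * t ^ 2 / 2) + b * (g3 * (t - 3 * t ^ 2 + 2 * t ^ 3) +
      d3 * (t ^ 2 / 2 - 2 * t ^ 3 + 3 * t ^ 4 / 2)))
  let X' : ℝ → ℝ := fun t => (d0 + 1) - 2 * t
  let Y' : ℝ → ℝ := fun t => d1 + b * (1 - 6 * t + 6 * t ^ 2)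
  let A' : ℝ → ℝ := fun _ => d3
  let B' : ℝ → ℝ := fun t => d4 + e * (1 - 6 * t + 6 * t ^ 2)
  have dX : ∀ t, HasDerivAt X (X' t) t := by
    intro t
    refine hasDerivAt_of_eq (hasDerivAt_poly g0 (d0 + 1) (-1) 0 0 0 t) (fun s => ?_) ?_
    · simp only [X]; ring
    · simp only [X']; ring
  have dY : ∀ t, HasDerivAt Y (Y' t) t := by
    intro t
    refine hasDerivAt_of_eq (hasDerivAt_poly g1 (d1 + b) (-3 * b) (2 * b) 0 0 t) (fun s => ?_) ?_
    · simp only [Y]; ring
    · simp only [Y']; ring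
  have dA : ∀ t, HasDerivAt Al (A' t) t := by
    intro t
    refine hasDerivAt_of_eq (hasDerivAt_poly g3 d3 0 0 0 0 t) (fun s => ?_) ?_
    · simp only [Al]; ring
    · simp only [A']; ring
  have dB : ∀ t, HasDerivAt Bl (B' t) t := by
    intro t
    refine hasDerivAt_of_eq (hasDerivAt_poly g4 (d4 + e) (-3 * e) (2 * e) 0 0 t) (fun s => ?_) ?_
    · simp only [Bl]; ring
    · simp only [B']; ring
  have dZ : ∀ t, HasDerivAt Z (X t * Y' t) t := by
    intro t
    refine hasDerivAt_of_eq (hasDerivAt_poly g2 (d1 * g0 + b * g0)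
      (d1 * (d0 + 1) / 2 + b * (-3 * g0 + (d0 + 1) / 2))
      (-d1 / 3 + b * (2 * g0 - 2 * (d0 + 1) - 1 / 3)) (b * (3 * (d0 + 1) / 2 + 3 / 2))
      (-6 * b / 5) t) (fun s => ?_) ?_
    · simp only [Z]; ring
    · simp only [X, Y']; ring
  have dC : ∀ t, HasDerivAt C (X t * B' t + Al t * Y' t) t := by
    intro t
    refine hasDerivAt_of_eq (hasDerivAt_poly g5 (d4 * g0 + e * g0 + (d1 * g3 + b * g3))
      (d4 * (d0 + 1) / 2 + e * (-3 * g0 + (d0 + 1) / 2) +
        (d1 * d3 / 2 + b * (-3 * g3 + d3 / 2)))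
      (-d4 / 3 + e * (2 * g0 - 2 * (d0 + 1) - 1 / 3) + b * (2 * g3 - 2 * d3))
      (e * (3 * (d0 + 1) / 2 + 3 / 2) + b * (3 * d3 / 2))
      (-6 * e / 5) t) (fun s => ?_) ?_
    · simp only [C]; ring
    · simp only [X, Y', Al, B']; ring
  let γ : ℝ → E := fun t => ![X t, Y t, Z t, Al t, Bl t, C t]
  let u : ℝ → E := fun t => ![X' t, Y' t, 0, A' t, B' t, 0]
  have hu1 : ∀ t, u t ∈ N.strat 1 := by
    intro t
    refine ⟨fun h => absurd rfl h, fun _ => ⟨rfl, rfl⟩⟩
  have huc : Continuous u := by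
    refine continuous_pi fun i => ?_
    fin_cases i
    · change Continuous X'
      fun_prop
    · change Continuous Y'
      fun_prop
    · exact continuous_const
    · change Continuous A'
      fun_prop
    · change Continuous B'
      fun_prop
    · exact continuous_const
  have hγ : ∀ t, HasDerivAt γ (A (γ t) (u t)) t := by
    intro t
    rw [hasDerivAt_pi]
    intro i
    fin_cases i
    · exact dX t
    · exact dY t
    · have h1 := dZ t
      have h2 : A (γ t) (u t) 2 = X t * Y' t := by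
        change 0 + X t * Y' t = _
        ring
      rw [← h2] at h1
      exact h1
    · exact dA t
    · exact dB t
    · have h1 := dC t
      have h2 : A (γ t) (u t) 5 = X t * B' t + Al t * Y' t := by
        change 0 + X t * B' t + Al t * Y' t = _
        ring
      rw [← h2] at h1
      exact h1
  refine ⟨fun t => N.of (γ t), u,
    isHorizontal_of_hasDerivAt γ u huc hu1 hγ, ?_, ?_⟩
  · apply N.ext6
    · change X 0 = g0
      simp only [X]; ring
    · change Y 0 = g1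
      simp only [Y]; ring
    · change Z 0 = g2
      simp only [Z]; ring
    · change Al 0 = g3
      simp only [Al]; ring
    · change Bl 0 = g4
      simp only [Bl]; ring
    · change C 0 = g5
      simp only [C]; ring
  · apply N.ext6
    · change X 1 = h.co 0
      simp only [X, hd0]; ring
    · change Y 1 = h.co 1
      simp only [Y, hd1]; ring
    · change Z 1 = h.co 2
      simp only [Z, hb, hd2]; ring
    · change Al 1 = h.co 3
      simp only [Al, hd3]; ring
    · change Bl 1 = h.co 4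
      simp only [Bl, hd4]; ring
    · change C 1 = h.co 5
      simp only [C, he, hd5]; ring

theorem ccEDist_ne_top (ν : E → ℝ) (x y : N) :
    ccEDist (N.strat 1 : Set E) ν x y ≠ ⊤ := by
  obtain ⟨γ, u, h, h0, h1⟩ := exists_horizontal x y
  refine ne_top_of_le_ne_top ENNReal.ofReal_ne_top
    (iInf_le_of_le γ (iInf_le_of_le u (iInf_le_of_le ⟨h, h0, h1⟩ le_rfl)))

end Pool.Agent.W530.Carnot
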